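import Pool.Agent.N869.QT.L.Stm

/-!
# Project QT (helper869): colourings of finite sets, general part

`R` is any type (in the application: the elements of `ℤ[(1 + √-7) / 2]`), `SA X` a finite set of finite
subsets of `R` for every `X` (the conductors of norm at most `X`), `Gd` a property of finite subsets (good),
`tt : R → ZMod 2`. `γ : R → Q` is a colouring, `E : I → Finset Q` a finite family of sets of colours.
-/

set_option autoImplicit false
set_option linter.unusedVariables false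

open scoped Classical

namespace Pool.Agent.N869.QT.G

open Finset
open Pool.Agent.N869.QT.L (Fam)

variable {R : Type}

/-- the subset of `S` of the system `a` -/
noncomputable def sys {I Q : Type} (γ : R → Q) (E : I → Finset Q) (S : Finset R) (a : I) :
    Finset R := S.filter fun π => γ π ∈ E a

/-- all the systems are good -/
def GdC (Gd : Finset R → Prop) {I Q : Type} (γ : R → Q) (E : I → Finset Q) (S : Finset R) : Prop :=
  ∀ a, Gd (sys γ E S a)

/-- all the systems are in the class -/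
def ClC (tt : R → ZMod 2) {I Q : Type} (γ : R → Q) (E : I → Finset Q) (S : Finset R) : Prop :=
  ∀ a, ∑ π ∈ sys γ E S a, tt π = 0

/-- the extension of a colouring of `S` to all elements -/
noncomputable def exC {Q : Type} [Nonempty Q] (S : Finset R) (c : S → Q) (π : R) : Q :=
  if h : π ∈ S then c ⟨π, h⟩ else Classical.arbitrary Q

/-- the proportion of the colourings of `S` with the property `P` -/
noncomputable def pr {Q : Type} [Fintype Q] [Nonempty Q] (S : Finset R) (P : (R → Q) → Prop) : ℝ :=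
  ((univ.filter fun c : S → Q => P (exC S c)).card : ℝ) / (Fintype.card Q : ℝ) ^ S.card

/-- `P` depends only on the colours of the elements of `S` -/
def Dep {Q : Type} (S : Finset R) (P : (R → Q) → Prop) : Prop :=
  ∀ γ γ' : R → Q, (∀ π ∈ S, γ π = γ' π) → (P γ ↔ P γ')

/-- QT-AV1: the proportion can be computed in a larger set. -/
def S_AV1 : Prop := ∀ (R Q : Type) [Fintype Q] [Nonempty Q] (S B : Finset R) (P : (R → Q) → Prop),
  S ⊆ B → Dep S P → pr S P = pr B P

/-- QT-AV2: sums of proportions. -/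
def S_AV2 : Prop := ∀ (R Q : Type) [Fintype Q] [Nonempty Q] (B : Finset R)
  (F : Finset (Finset R)) (P : Finset R → (R → Q) → Prop), (∀ S ∈ F, S ⊆ B) → (∀ S ∈ F, Dep S (P S)) →
  ∑ S ∈ F, pr S (P S) = (∑ c : B → Q, ((F.filter fun S => P S (exC B c)).card : ℝ)) /
    (Fintype.card Q : ℝ) ^ B.card

/-- QT-AV3: pairs of colourings. -/
def S_AV3 : Prop := ∀ (R Q : Type) [Fintype Q] [Nonempty Q] (S : Finset R) (P P' : (R → Q) → Prop),
  Dep S P → Dep S P' →
  pr S (fun γ : R → Q × Q => P (fun π => (γ π).1) ∧ P' (fun π => (γ π).2)) = pr S P * pr S P'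

/-- the statement on the averages -/
def ASY (SA : ℕ → Finset (Finset R)) (Gd : Finset R → Prop) (tt : R → ZMod 2) (c : ℝ) : Prop :=
  ∀ (I I' Q : Type) [Fintype I] [Fintype I'] [Fintype Q] [Nonempty Q]
  (E : I → Finset Q) (F : I' → Finset Q), Fam E → ∀ ε : ℝ, 0 < ε → ∃ X₀ : ℕ, ∀ X : ℕ, X₀ ≤ X →
  |∑ S ∈ SA X, pr S (fun γ : R → Q => ClC tt γ E S ∧ ClC tt γ F S ∧ GdC Gd γ E S) -
      c ^ Fintype.card I * ∑ S ∈ SA X, pr S (fun γ : R → Q => ClC tt γ E S ∧ ClC tt γ F S)| ≤ ε * X

/-- the statement for almost all the sets -/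
def SQC (SA : ℕ → Finset (Finset R)) (Gd : Finset R → Prop) (tt : R → ZMod 2) (c : ℝ) : Prop :=
  ∀ (I I' Q : Type) [Fintype I] [Fintype I'] [Fintype Q] [Nonempty Q]
  (E : I → Finset Q) (F : I' → Finset Q), Fam E → (∀ a, E a ≠ univ) → ∀ δ ε : ℝ, 0 < δ → 0 < ε →
  ∃ X₀ : ℕ, ∀ X : ℕ, X₀ ≤ X →
  (((SA X).filter fun S => δ < |pr S (fun γ : R → Q => ClC tt γ E S ∧ ClC tt γ F S ∧ GdC Gd γ E S) -
      c ^ Fintype.card I * pr S (fun γ : R → Q => ClC tt γ E S ∧ ClC tt γ F S)|).card : ℝ) ≤ ε * X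

/-- QT-SQ: the second moment. -/
def S_SQ : Prop := ∀ (R : Type) (SA : ℕ → Finset (Finset R)) (Gd : Finset R → Prop)
  (tt : R → ZMod 2) (c : ℝ), ASY SA Gd tt c → SQC SA Gd tt c

/-- the colours for the multiquadratic extensions -/
abbrev Qn (n : ℕ) : Type := {q : Finset (Fin n) // q.Nonempty}

/-- the colours that meet `T` in an odd number of elements -/
noncomputable def ET {n : ℕ} (T : Qn n) : Finset (Qn n) := univ.filter fun q => Odd (q.1 ∩ T.1).card

/-- few sets have few elements with `tt π = 1` -/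
def Few (SA : ℕ → Finset (Finset R)) (tt : R → ZMod 2) : Prop := ∀ (m : ℕ) (ε : ℝ), 0 < ε →
  ∃ X₀ : ℕ, ∀ X : ℕ, X₀ ≤ X →
    (((SA X).filter fun S => (S.filter fun π => tt π = 1).card < m).card : ℝ) ≤ ε * X

/-- for almost all the sets `S` and every set `𝒯` of characters: (1) the class is a positive
proportion of all colourings; (2) the proportion in the class of the colourings for which the systems in
`𝒯` are good is close to `c ^ #𝒯`; (3) few colourings in the class are degenerate: the colours used span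
less than `𝔽₂ ^ n`, that is, for some `T` no element has a colour in `ET T`. -/
def MQ (SA : ℕ → Finset (Finset R)) (Gd : Finset R → Prop) (tt : R → ZMod 2) (c : ℝ) : Prop :=
  ∀ (n : ℕ), 2 ≤ n → ∀ [Nonempty (Qn n)] (𝒯 : Finset (Qn n)) (δ ε : ℝ), 0 < δ → 0 < ε →
  ∃ X₀ : ℕ, ∀ X : ℕ, X₀ ≤ X →
  (((SA X).filter fun S => ¬ (0 < pr S (fun γ : R → Qn n => ClC tt γ ET S) ∧
    |pr S (fun γ : R → Qn n => ClC tt γ ET S ∧ ∀ T ∈ 𝒯, Gd (sys γ ET S T)) -
      c ^ 𝒯.card * pr S (fun γ : R → Qn n => ClC tt γ ET S)| ≤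
      δ * pr S (fun γ : R → Qn n => ClC tt γ ET S) ∧
    pr S (fun γ : R → Qn n => ClC tt γ ET S ∧ ∃ T : Qn n, sys γ ET S T = ∅) ≤
      δ * pr S (fun γ : R → Qn n => ClC tt γ ET S))).card : ℝ) ≤ ε * X

/-- QT-MQ -/
def S_MQ : Prop := ∀ (R : Type) (SA : ℕ → Finset (Finset R)) (Gd : Finset R → Prop)
  (tt : R → ZMod 2) (c : ℝ), SQC SA Gd tt c → Few SA tt → MQ SA Gd tt c

end Pool.Agent.N869.QT.G
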