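import Pool.Agent.N869.QT.G.Stm

/-!
# Project QT (helper869), colourings of finite sets: averages, pairs, second moment
(`S_AV1`, `S_AV2`, `S_AV3`, `S_SQ`), by helper899
-/

set_option autoImplicit false
set_option linter.unusedVariables false

open scoped Classical

namespace Pool.Agent.N869.QT.G

open Finset
open Pool.Agent.N869.QT.L (Fam)

/-- splitting a colouring of `B` along `S ⊆ B` -/
noncomputable def spl {R Q : Type} {S B : Finset R} (h : S ⊆ B) :
    (B → Q) ≃ (S → Q) × ({x : B // x.1 ∉ S} → Q) where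
  toFun c := (fun s => c ⟨s.1, h s.2⟩, fun x => c x.1)
  invFun p := fun b => if hb : b.1 ∈ S then p.1 ⟨b.1, hb⟩ else p.2 ⟨b, hb⟩
  left_inv c := by
    funext b
    by_cases hb : b.1 ∈ S <;> simp [hb]
  right_inv p := by
    ext x
    · simp
    · simp [x.2]

theorem exC_of_mem {R Q : Type} [Nonempty Q] {S : Finset R} (c : S → Q) {π : R} (h : π ∈ S) :
    exC S c π = c ⟨π, h⟩ := by
  simp [exC, h]

theorem t_AV1 : S_AV1 := by
  intro R Q _ _ S B P h hP
  have hc : (Fintype.card Q : ℝ) ^ B.card =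
      (Fintype.card Q : ℝ) ^ S.card * Fintype.card ({x : B // x.1 ∉ S} → Q) := by
    have := Fintype.card_congr (spl (Q := Q) h)
    rw [Fintype.card_prod] at this
    simp only [Fintype.card_fun, Fintype.card_coe] at this
    have h2 : (Fintype.card ({x : B // x.1 ∉ S} → Q)) = Fintype.card Q ^ Fintype.card {x : B // x.1 ∉ S} := by
      simp
    rw [h2]
    exact_mod_cast this
  have hq : (Fintype.card Q : ℝ) ≠ 0 := by
    exact_mod_cast Fintype.card_ne_zero
  have hr : (Fintype.card ({x : B // x.1 ∉ S} → Q) : ℝ) ≠ 0 := by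
    exact_mod_cast Fintype.card_ne_zero
  have hn : (univ.filter fun c : B → Q => P (exC B c)).card =
      (univ.filter fun c : S → Q => P (exC S c)).card * Fintype.card ({x : B // x.1 ∉ S} → Q) := by
    rw [← Finset.card_univ (α := ({x : B // x.1 ∉ S} → Q)), ← Finset.card_product]
    refine Finset.card_equiv (spl (Q := Q) h) ?_
    intro c
    simp only [mem_filter, mem_univ, true_and, mem_product, and_true]
    refine hP _ _ ?_
    intro π hπ
    rw [exC_of_mem _ hπ, exC_of_mem _ (h hπ)]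
    rfl
  unfold pr
  rw [hn, hc]
  push_cast
  field_simp

theorem t_AV2 : S_AV2 := by
  intro R Q _ _ B F P hF hP
  have h1 : ∀ S ∈ F, pr S (P S) = pr B (P S) := fun S hS => t_AV1 R Q S B (P S) (hF S hS) (hP S hS)
  rw [Finset.sum_congr rfl h1]
  unfold pr
  rw [← Finset.sum_div]
  congr 1
  simp only [Finset.card_filter, Nat.cast_sum]
  rw [Finset.sum_comm]

theorem pr_prod {R Q : Type} [Fintype Q] [Nonempty Q] (S : Finset R) (P P' : (R → Q) → Prop)
    (hP : Dep S P) (hP' : Dep S P') (PP : (R → Q × Q) → Prop)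
    (h : ∀ γ, PP γ ↔ P (fun π => (γ π).1) ∧ P' (fun π => (γ π).2)) :
    pr S PP = pr S P * pr S P' := by
  unfold pr
  have hn : (univ.filter fun c : S → Q × Q => PP (exC S c)).card =
      (univ.filter fun c : S → Q => P (exC S c)).card *
        (univ.filter fun c : S → Q => P' (exC S c)).card := by
    rw [← Finset.card_product]
    refine Finset.card_equiv (Equiv.arrowProdEquivProdArrow (↥S) (fun _ => Q) (fun _ => Q)) ?_
    intro c
    simp only [mem_filter, mem_univ, true_and, mem_product]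
    rw [h]
    refine and_congr (hP _ _ ?_) (hP' _ _ ?_)
    · intro π hπ
      rw [exC_of_mem _ hπ, exC_of_mem _ hπ]
      rfl
    · intro π hπ
      rw [exC_of_mem _ hπ, exC_of_mem _ hπ]
      rfl
  rw [hn, Fintype.card_prod, div_mul_div_comm]
  push_cast
  rw [mul_pow]

theorem t_AV3 : S_AV3 := by
  intro R Q _ _ S P P' hP hP'
  exact pr_prod S P P' hP hP' _ (fun γ => Iff.rfl)

theorem sys_congr {R I Q : Type} (E : I → Finset Q) (S : Finset R) (a : I) {γ γ' : R → Q}
    (h : ∀ π ∈ S, γ π = γ' π) : sys γ E S a = sys γ' E S a := by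
  unfold sys
  refine Finset.filter_congr ?_
  intro π hπ
  rw [h π hπ]

theorem dep_ClC {R I Q : Type} (tt : R → ZMod 2) (E : I → Finset Q) (S : Finset R) :
    Dep S (fun γ : R → Q => ClC tt γ E S) := by
  intro γ γ' h
  unfold ClC
  simp only [sys_congr E S _ h]

theorem dep_GdC {R I Q : Type} (Gd : Finset R → Prop) (E : I → Finset Q) (S : Finset R) :
    Dep S (fun γ : R → Q => GdC Gd γ E S) := by
  intro γ γ' h
  unfold GdC
  simp only [sys_congr E S _ h]

theorem Dep.and {R Q : Type} {S : Finset R} {P P' : (R → Q) → Prop} (h : Dep S P) (h' : Dep S P') :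
    Dep S (fun γ => P γ ∧ P' γ) := fun γ γ' e => and_congr (h γ γ' e) (h' γ γ' e)

theorem sys_fst {R I I₁ Q : Type} [Fintype Q] (E : I → Finset Q) (E₁ : I₁ → Finset (Q × Q))
    (S : Finset R) (γ : R → Q × Q) (a : I) (b : I₁) (h : E₁ b = E a ×ˢ univ) :
    sys γ E₁ S b = sys (fun π => (γ π).1) E S a := by
  ext π
  simp [sys, h]

theorem sys_snd {R I I₁ Q : Type} [Fintype Q] (E : I → Finset Q) (E₁ : I₁ → Finset (Q × Q))
    (S : Finset R) (γ : R → Q × Q) (a : I) (b : I₁) (h : E₁ b = univ ×ˢ E a) :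
    sys γ E₁ S b = sys (fun π => (γ π).2) E S a := by
  ext π
  simp [sys, h]

/-- the sum of two families, on the pairs of colours -/
noncomputable def EE {I I' Q : Type} [Fintype Q] (E : I → Finset Q) (F : I' → Finset Q) :
    I ⊕ I' → Finset (Q × Q) := Sum.elim (fun a => E a ×ˢ univ) (fun b => univ ×ˢ F b)

theorem fam_EE {I Q : Type} [Fintype Q] {E : I → Finset Q} (hE : Fam E)
    (hu : ∀ a, E a ≠ univ) : Fam (EE E E) := by
  have hne := hE.ne
  have key : ∀ a b, E a ×ˢ univ ≠ (univ : Finset Q) ×ˢ E b := by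
    intro a b h
    apply hu a
    ext q
    obtain ⟨r, hr⟩ := hne b
    have : (q, r) ∈ E a ×ˢ (univ : Finset Q) := by rw [h]; simp [hr]
    simp at this
    simp [this]
  refine ⟨?_, ?_⟩
  · rintro (a | a) (b | b) h
    · congr 1
      apply hE.inj
      ext q
      have h' : E a ×ˢ (univ : Finset Q) = E b ×ˢ univ := h
      have := Finset.ext_iff.mp h' (q, q)
      simpa using this
    · exact (key a b h).elim
    · exact (key b a h.symm).elim
    · congr 1
      apply hE.inj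
      ext q
      have h' : (univ : Finset Q) ×ˢ E a = univ ×ˢ E b := h
      have := Finset.ext_iff.mp h' (q, q)
      simpa using this
  · rintro (a | a)
    · obtain ⟨r, hr⟩ := hne a
      exact ⟨(r, r), by simp [EE, hr]⟩
    · obtain ⟨r, hr⟩ := hne a
      exact ⟨(r, r), by simp [EE, hr]⟩

theorem fam_E1 {I Q : Type} [Fintype Q] {E : I → Finset Q} (hE : Fam E) :
    Fam (fun a => E a ×ˢ (univ : Finset Q)) := by
  refine ⟨?_, ?_⟩
  · intro a b h
    apply hE.inj
    ext q
    have h' : E a ×ˢ (univ : Finset Q) = E b ×ˢ univ := h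
    have := Finset.ext_iff.mp h' (q, q)
    simpa using this
  · intro a
    obtain ⟨r, hr⟩ := hE.ne a
    exact ⟨(r, r), by simp [hr]⟩

theorem ClC_EE {R I I' Q : Type} [Fintype Q] (tt : R → ZMod 2) (E : I → Finset Q) (F : I' → Finset Q)
    (S : Finset R) (γ : R → Q × Q) :
    ClC tt γ (EE E F) S ↔ ClC tt (fun π => (γ π).1) E S ∧ ClC tt (fun π => (γ π).2) F S := by
  unfold ClC
  constructor
  · intro h
    refine ⟨fun a => ?_, fun b => ?_⟩
    · rw [← sys_fst E (EE E F) S γ a (Sum.inl a) rfl]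
      exact h _
    · rw [← sys_snd F (EE E F) S γ b (Sum.inr b) rfl]
      exact h _
  · rintro ⟨h, h'⟩ (a | b)
    · rw [sys_fst E (EE E F) S γ a (Sum.inl a) rfl]
      exact h _
    · rw [sys_snd F (EE E F) S γ b (Sum.inr b) rfl]
      exact h' _

theorem GdC_EE {R I I' Q : Type} [Fintype Q] (Gd : Finset R → Prop) (E : I → Finset Q)
    (F : I' → Finset Q) (S : Finset R) (γ : R → Q × Q) :
    GdC Gd γ (EE E F) S ↔ GdC Gd (fun π => (γ π).1) E S ∧ GdC Gd (fun π => (γ π).2) F S := by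
  unfold GdC
  constructor
  · intro h
    refine ⟨fun a => ?_, fun b => ?_⟩
    · rw [← sys_fst E (EE E F) S γ a (Sum.inl a) rfl]
      exact h _
    · rw [← sys_snd F (EE E F) S γ b (Sum.inr b) rfl]
      exact h _
  · rintro ⟨h, h'⟩ (a | b)
    · rw [sys_fst E (EE E F) S γ a (Sum.inl a) rfl]
      exact h _
    · rw [sys_snd F (EE E F) S γ b (Sum.inr b) rfl]
      exact h' _

theorem ClC_E1 {R I Q : Type} [Fintype Q] (tt : R → ZMod 2) (E : I → Finset Q)
    (S : Finset R) (γ : R → Q × Q) :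
    ClC tt γ (fun a => E a ×ˢ (univ : Finset Q)) S ↔ ClC tt (fun π => (γ π).1) E S := by
  unfold ClC
  refine forall_congr' fun a => ?_
  rw [sys_fst E (fun a => E a ×ˢ (univ : Finset Q)) S γ a a rfl]

theorem GdC_E1 {R I Q : Type} [Fintype Q] (Gd : Finset R → Prop) (E : I → Finset Q)
    (S : Finset R) (γ : R → Q × Q) :
    GdC Gd γ (fun a => E a ×ˢ (univ : Finset Q)) S ↔ GdC Gd (fun π => (γ π).1) E S := by
  unfold GdC
  refine forall_congr' fun a => ?_
  rw [sys_fst E (fun a => E a ×ˢ (univ : Finset Q)) S γ a a rfl]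

theorem ClC_sum {R I I' Q : Type} (tt : R → ZMod 2) (E : I → Finset Q) (F : I' → Finset Q)
    (S : Finset R) (γ : R → Q) :
    ClC tt γ (Sum.elim E F) S ↔ ClC tt γ E S ∧ ClC tt γ F S := by
  unfold ClC
  constructor
  · intro h
    exact ⟨fun a => h (Sum.inl a), fun b => h (Sum.inr b)⟩
  · rintro ⟨h, h'⟩ (a | b)
    · exact h a
    · exact h' b

theorem t_SQ : S_SQ := by
  intro R SA Gd tt c hA I I' Q _ _ _ _ E F hE hu δ ε hδ hε
  set k : ℕ := Fintype.card I with hk
  set x : Finset R → ℝ := fun S => pr S (fun γ : R → Q => ClC tt γ E S ∧ ClC tt γ F S ∧ GdC Gd γ E S)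
    with hx
  set y : Finset R → ℝ := fun S => pr S (fun γ : R → Q => ClC tt γ E S ∧ ClC tt γ F S) with hy
  set C : ℝ := 1 + 2 * |c ^ k| with hC
  have hCpos : 0 < C := by positivity
  set ε₁ : ℝ := δ ^ 2 * ε / C with hε₁
  have hε₁pos : 0 < ε₁ := by positivity
  have dx : ∀ S : Finset R, Dep S (fun γ : R → Q => ClC tt γ E S ∧ ClC tt γ F S ∧ GdC Gd γ E S) :=
    fun S => (dep_ClC tt E S).and ((dep_ClC tt F S).and (dep_GdC Gd E S))
  have dy : ∀ S : Finset R, Dep S (fun γ : R → Q => ClC tt γ E S ∧ ClC tt γ F S) :=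
    fun S => (dep_ClC tt E S).and (dep_ClC tt F S)
  obtain ⟨X₁, h₁⟩ := hA (I ⊕ I) (I' ⊕ I') (Q × Q) (EE E E) (EE F F) (fam_EE hE hu) ε₁ hε₁pos
  obtain ⟨X₂, h₂⟩ := hA I (I' ⊕ (I ⊕ I')) (Q × Q) (fun a => E a ×ˢ univ)
    (EE F (Sum.elim E F)) (fam_E1 hE) ε₁ hε₁pos
  have e1 : ∀ S : Finset R, pr S (fun γ : R → Q × Q => ClC tt γ (EE E E) S ∧ ClC tt γ (EE F F) S ∧
      GdC Gd γ (EE E E) S) = x S * x S := by
    intro S
    rw [hx]
    simp only
    rw [← t_AV3 R Q S _ _ (dx S) (dx S)]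
    congr 1
    funext γ
    rw [ClC_EE, ClC_EE, GdC_EE]
    apply propext
    tauto
  have e2 : ∀ S : Finset R, pr S (fun γ : R → Q × Q => ClC tt γ (EE E E) S ∧ ClC tt γ (EE F F) S) =
      y S * y S := by
    intro S
    rw [hy]
    simp only
    rw [← t_AV3 R Q S _ _ (dy S) (dy S)]
    congr 1
    funext γ
    rw [ClC_EE, ClC_EE]
    apply propext
    tauto
  have e3 : ∀ S : Finset R, pr S (fun γ : R → Q × Q => ClC tt γ (fun a => E a ×ˢ (univ : Finset Q)) S ∧
      ClC tt γ (EE F (Sum.elim E F)) S ∧ GdC Gd γ (fun a => E a ×ˢ (univ : Finset Q)) S) =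
      x S * y S := by
    intro S
    rw [hx, hy]
    simp only
    rw [← t_AV3 R Q S _ _ (dx S) (dy S)]
    congr 1
    funext γ
    rw [ClC_EE, ClC_E1, GdC_E1, ClC_sum]
    apply propext
    tauto
  have e4 : ∀ S : Finset R, pr S (fun γ : R → Q × Q => ClC tt γ (fun a => E a ×ˢ (univ : Finset Q)) S ∧
      ClC tt γ (EE F (Sum.elim E F)) S) = y S * y S := by
    intro S
    rw [hy]
    simp only
    rw [← t_AV3 R Q S _ _ (dy S) (dy S)]
    congr 1
    funext γ
    rw [ClC_EE, ClC_E1, ClC_sum]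
    apply propext
    tauto
  refine ⟨max X₁ X₂, fun X hX => ?_⟩
  have g1 := h₁ X (le_trans (le_max_left _ _) hX)
  have g2 := h₂ X (le_trans (le_max_right _ _) hX)
  rw [Fintype.card_sum, ← hk] at g1
  rw [← hk] at g2
  simp only [e1, e2] at g1
  simp only [e3, e4] at g2
  have hsq : ∑ S ∈ SA X, (x S - c ^ k * y S) ^ 2 =
      (∑ S ∈ SA X, x S * x S - c ^ (k + k) * ∑ S ∈ SA X, y S * y S) -
        2 * c ^ k * (∑ S ∈ SA X, x S * y S - c ^ k * ∑ S ∈ SA X, y S * y S) := by
    rw [Finset.mul_sum, Finset.mul_sum, ← Finset.sum_sub_distrib, ← Finset.sum_sub_distrib,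
      Finset.mul_sum, ← Finset.sum_sub_distrib]
    refine Finset.sum_congr rfl fun S _ => ?_
    rw [pow_add]
    ring
  have hle : ∑ S ∈ SA X, (x S - c ^ k * y S) ^ 2 ≤ C * (ε₁ * X) := by
    rw [hsq, hC]
    have a1 := le_abs_self (∑ S ∈ SA X, x S * x S - c ^ (k + k) * ∑ S ∈ SA X, y S * y S)
    have a2 : -(2 * c ^ k * (∑ S ∈ SA X, x S * y S - c ^ k * ∑ S ∈ SA X, y S * y S)) ≤
        2 * |c ^ k| * (ε₁ * X) := by
      refine le_trans (neg_le_abs _) ?_
      rw [abs_mul, abs_mul, abs_two]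
      exact mul_le_mul_of_nonneg_left g2 (by positivity)
    nlinarith [a1, a2, g1]
  have hmk : δ ^ 2 * (((SA X).filter fun S => δ < |x S - c ^ k * y S|).card : ℝ) ≤
      ∑ S ∈ SA X, (x S - c ^ k * y S) ^ 2 := by
    have : ∑ S ∈ (SA X).filter (fun S => δ < |x S - c ^ k * y S|), (x S - c ^ k * y S) ^ 2 ≤
        ∑ S ∈ SA X, (x S - c ^ k * y S) ^ 2 :=
      Finset.sum_le_sum_of_subset_of_nonneg (Finset.filter_subset _ _) (fun _ _ _ => sq_nonneg _)
    refine le_trans ?_ this
    rw [mul_comm, ← nsmul_eq_mul]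
    refine Finset.card_nsmul_le_sum _ _ _ ?_
    intro S hS
    have h := (mem_filter.mp hS).2
    rw [← sq_abs (x S - c ^ k * y S)]
    exact pow_le_pow_left₀ hδ.le h.le 2
  have hfin : δ ^ 2 * (((SA X).filter fun S => δ < |x S - c ^ k * y S|).card : ℝ) ≤
      δ ^ 2 * (ε * X) := by
    refine le_trans hmk (le_trans hle (le_of_eq ?_))
    rw [hε₁]
    field_simp
  exact le_of_mul_le_mul_left hfin (by positivity)

end Pool.Agent.N869.QT.G
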